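import Mathlib
import Pool.Agent.Helper6.MONO.Fin2S

/-!
Monotonicity of translation lengths of complex hyperbolic triangle groups.
-/

set_option autoImplicit false

namespace Pool.Agent.Results.MP_c75db0_gt.MonotoneRightAngle

open Pool.Agent.Helper6.MONO

theorem result : ∀ p q r : ℕ, 4 ≤ p → 4 ≤ q → 4 ≤ r →
    (∀ θ : ℝ, |θ| ≤ Real.pi / 2 →
      ∃ e : Fin 3 → Fin 3 → ℂ, IsTri p q r e ∧ Complex.arg (-trip e) = θ) ∧
    ∀ e e' : Fin 3 → Fin 3 → ℂ, IsTri p q r e → IsTri p q r e' →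
      (trip e).re ≤ 0 → (trip e').re ≤ 0 → ∀ t t' : ℝ, IsCartan e t → IsCartan e' t' →
      (|t| ≤ |t'| → ∀ w : List (Fin 3), tl (act e' w) ≤ tl (act e w)) ∧
      (|t| < |t'| → ∃ c : ℝ, 0 < c ∧ c < 1 ∧
        ∀ w : List (Fin 3), tl (act e' w) ≤ c * tl (act e w)) := by
  intro p q r hp hq hr
  refine ⟨st_EXI p q r hp hq hr, ?_⟩
  intro e e' he he' h0 h0' t t' ht ht'
  refine ⟨fun htt w => ?_, fun htt => ?_⟩
  · exact a_main p q r hp hq hr (S.MB_weak (S.a_all p q r hp hq hr)) e e' he he' h0 h0' t t'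
      ht ht' htt w
  · exact S.a_strict p q r hp hq hr (S.a_all p q r hp hq hr) e e' he he' h0 h0' t t' ht ht' htt

end Pool.Agent.Results.MP_c75db0_gt.MonotoneRightAngle
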