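import Mathlib
import Pool.Agent.Helper6.CXT.RES
import Pool.Agent.Helper81.FIN.Le9

/-!
Translation lengths of complex hyperbolic triangle groups decrease along the deformation up to the
threshold: all triples with smallest order at most 9.
-/

set_option autoImplicit false

namespace Pool.Agent.Results.MP_c75db0_gt.MinOrder

open Pool.Agent.Helper6.MONO

theorem result : ∀ p q r : ℕ, 2 ≤ p → p ≤ q → q ≤ r → p ≤ 9 →
    (1 : ℝ) / p + 1 / q + 1 / r < 1 → FULLAt p q r := by
  intro p q r hp hpq hqr hc hy
  refine full_of (C := fun p _ _ => p ≤ 9) ?_ p q r hp hpq hqr (Or.inr hc) hy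
  intro p q r hp hpq hqr hc hne
  exact Pool.Agent.Helper81.FIN.fin_le_9 p q r hp hpq hqr hc hne

end Pool.Agent.Results.MP_c75db0_gt.MinOrder
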