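import Mathlib
import Pool.Agent.Helper6.CXT.RES
import Pool.Agent.Helper81.FIN.All

/-!
Translation lengths of complex hyperbolic triangle groups decrease along the deformation up to the
threshold: all hyperbolic triples of integers and all words.
-/

set_option autoImplicit false

namespace Pool.Agent.Results.MP_c75db0_gt.TranslationLengthsDecrease

open Pool.Agent.Helper6.MONO

theorem result : ∀ p q r : ℕ, 2 ≤ p → p ≤ q → q ≤ r →
    (1 : ℝ) / p + 1 / q + 1 / r < 1 →
    (∃ e : Fin 3 → Fin 3 → ℂ, IsTri p q r e ∧ Complex.arg (-trip e) = 0) ∧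
    (∀ e : Fin 3 → Fin 3 → ℂ, IsTri p q r e → ∀ θ : ℝ, -Real.pi < θ →
      |θ| ≤ |Complex.arg (-trip e)| →
      ∃ e' : Fin 3 → Fin 3 → ℂ, IsTri p q r e' ∧ Complex.arg (-trip e') = θ) ∧
    ∀ e e' : Fin 3 → Fin 3 → ℂ, IsTri p q r e → IsTri p q r e' →
      |Complex.arg (-trip e)| ≤ |Complex.arg (-trip e')| →
      (∀ e'' : Fin 3 → Fin 3 → ℂ, IsTri p q r e'' →
        |Complex.arg (-trip e'')| ≤ |Complex.arg (-trip e')| →
        ¬ Ell (act e'' [0, 1, 2, 1]) ∧ ¬ Ell (act e'' [0, 1, 2])) →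
      ∀ w : List (Fin 3), tl (act e' w) ≤ tl (act e w) := by
  intro p q r hp hpq hqr hy
  exact full_of_fin Pool.Agent.Helper81.FIN.st_fin p q r hp hpq hqr hy

end Pool.Agent.Results.MP_c75db0_gt.TranslationLengthsDecrease
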